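import Pool.Agent.Run7.h92.JG.Stm

/-!
# Piece TPROD: the theta function of `D_n^+` as a sum of products
-/

set_option autoImplicit false

namespace Pool.Agent.Run7.h267.JG

open Complex MatrixGroups ModularGroup
open UpperHalfPlane hiding I
open Pool.Agent.Run7.h92.JG

noncomputable section

theorem e_add' (a b : ℂ) : e (a + b) = e a * e b := by
  unfold e
  rw [← Complex.exp_add]
  congr 1
  ring

theorem e_sum' {ι : Type*} (s : Finset ι) (f : ι → ℂ) : e (∑ i ∈ s, f i) = ∏ i ∈ s, e (f i) := by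
  unfold e
  rw [← Complex.exp_sum, Finset.mul_sum]

theorem e_half (s : ℤ) : e ((s : ℂ) * 1 / 2) = if Even s then 1 else -1 := by
  have h : e ((s : ℂ) * 1 / 2) = (-1 : ℂ) ^ s := by
    unfold e
    rw [← Complex.exp_pi_mul_I, ← Complex.exp_int_mul]
    congr 1
    ring
  rw [h]
  split_ifs with h1
  · exact h1.neg_one_zpow
  · exact (Int.not_even_iff_odd.1 h1).neg_one_zpow

/-- the vector `v + a / 2` -/
def P {n : ℕ} (a : ℕ) (v : Fin n → ℤ) : Fin n → ℝ := fun i => (v i : ℝ) + (a : ℝ) / 2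

/-- the terms of the product -/
def Tm {n : ℕ} (τ : ℂ) (z : Fin n → ℂ) (a b : ℕ) (v : Fin n → ℤ) : ℂ :=
  ∏ i, e (((v i : ℂ) + a / 2) ^ 2 * τ / 2 + ((v i : ℂ) + a / 2) * (z i + b / 2))

theorem Tm_eq {n : ℕ} (τ : ℂ) (z : Fin n → ℂ) (a b : ℕ) (v : Fin n → ℤ) :
    Tm τ z a b v = e ((ip (P a v) (P a v) : ℝ) * τ / 2 + pr (P a v) z) *
      e (((∑ i, P a v i : ℝ) : ℂ) * b / 2) := by
  unfold Tm
  rw [← e_add', ← e_sum']
  congr 1
  unfold ip pr P
  push_cast
  rw [Finset.sum_mul, Finset.sum_mul, Finset.sum_div, Finset.sum_div, ← Finset.sum_add_distrib,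
    ← Finset.sum_add_distrib]
  refine Finset.sum_congr rfl fun i _ => ?_
  ring

theorem P_inj {n : ℕ} (a : ℕ) : Function.Injective (P (n := n) a) := by
  intro v w h
  funext i
  have := congrFun h i
  unfold P at this
  have h2 : (v i : ℝ) = w i := by linarith
  exact_mod_cast h2

theorem mem_iff {n : ℕ} (a : ℕ) (ha : a ≤ 1) (v : Fin n → ℤ) (s : ℤ)
    (hs : ∑ i, P a v i = (s : ℝ)) : P a v ∈ Mlat n ↔ Even s := by
  constructor
  · rintro ⟨_, m, hm⟩
    refine ⟨m, ?_⟩
    have : (s : ℝ) = 2 * m := by rw [← hs, hm]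
    have h2 : s = 2 * m := by exact_mod_cast this
    omega
  · rintro ⟨m, hm⟩
    refine ⟨?_, m, ?_⟩
    · interval_cases a
      · exact Or.inl fun i => ⟨v i, by simp [P]⟩
      · exact Or.inr fun i => ⟨v i, by simp [P]⟩
    · rw [hs, hm]
      push_cast
      ring

theorem ex_sum {n : ℕ} (hn : Even n) (a : ℕ) (v : Fin n → ℤ) :
    ∃ s : ℤ, ∑ i, P a v i = (s : ℝ) := by
  obtain ⟨k, hk⟩ := hn
  refine ⟨∑ i, v i + a * k, ?_⟩
  unfold P
  rw [Finset.sum_add_distrib, Finset.sum_const, Finset.card_univ, Fintype.card_fin, nsmul_eq_mul]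
  have : (n : ℝ) = k + k := by exact_mod_cast hk
  rw [this]
  push_cast
  ring

theorem term_eq {n : ℕ} (hn : Even n) (τ : ℂ) (z : Fin n → ℂ) (a : ℕ) (ha : a ≤ 1)
    (v : Fin n → ℤ) :
    tt (Mlat n) τ z (P a v) = 1 / 2 * (Tm τ z a 0 v + Tm τ z a 1 v) := by
  obtain ⟨s, hs⟩ := ex_sum hn a v
  have hmem := mem_iff a ha v s hs
  rw [Tm_eq, Tm_eq, hs]
  have h0 : e ((((s : ℝ) : ℂ)) * ((0 : ℕ) : ℂ) / 2) = 1 := by simp [e]
  have h1 : e ((((s : ℝ) : ℂ)) * ((1 : ℕ) : ℂ) / 2) = if Even s then 1 else -1 := by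
    rw [← e_half]
    push_cast
    rfl
  rw [h0, h1]
  unfold tt
  by_cases he : Even s
  · rw [if_pos he, Set.indicator_of_mem (by exact hmem.2 he)]
    ring
  · rw [if_neg he, Set.indicator_of_notMem (by exact fun h => he (hmem.1 h))]
    ring

theorem t_TPROD (hP : S_PROD) (hV : S_VT) : S_TPROD := by
  intro n hn0 hn τ z
  have hτ : 0 < (τ : ℂ).im := τ.im_pos
  -- the products
  have hprod : ∀ a b : ℕ, Summable (Tm (τ : ℂ) z a b) ∧
      ∑' v, Tm (τ : ℂ) z a b v = ∏ i, vt a b τ (z i) := by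
    intro a b
    have h := hP n (fun i (m : ℤ) =>
      e (((m : ℂ) + a / 2) ^ 2 * τ / 2 + ((m : ℂ) + a / 2) * (z i + b / 2)))
      (fun i => (hV a b τ (z i) hτ).1)
    exact ⟨h.1.of_norm, h.2⟩
  set M := Mlat n with hM
  let f : ℕ → (Fin n → ℝ) → ℂ := fun a => Set.indicator (Set.range (P a)) (tt M τ z)
  have hcomp : ∀ a, a ≤ 1 → (f a ∘ P a) = fun v => 1 / 2 * (Tm (τ : ℂ) z a 0 v + Tm (τ : ℂ) z a 1 v) := by
    intro a ha
    funext v
    have hv : P a v ∈ Set.range (P (n := n) a) := ⟨v, rfl⟩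
    simp only [f, Function.comp]
    rw [Set.indicator_of_mem hv]
    exact term_eq hn τ z a ha v
  have hout : ∀ a, ∀ x ∉ Set.range (P a), f a x = 0 := fun a x hx => Set.indicator_of_notMem hx _
  have hsum : ∀ a, a ≤ 1 → Summable (f a) := by
    intro a ha
    rw [← (P_inj a).summable_iff (hout a), hcomp a ha]
    exact ((hprod a 0).1.add (hprod a 1).1).mul_left _
  have htsum : ∀ a, a ≤ 1 → ∑' x, f a x =
      1 / 2 * (∏ i, vt a 0 τ (z i) + ∏ i, vt a 1 τ (z i)) := by
    intro a ha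
    have h1 : ∑' v, f a (P a v) = ∑' x, f a x := by
      apply (P_inj a).tsum_eq
      intro x hx
      by_contra hc
      exact hx (hout a x hc)
    rw [← h1]
    have h2 : (fun v => f a (P a v)) = fun v => 1 / 2 * (Tm (τ : ℂ) z a 0 v + Tm (τ : ℂ) z a 1 v) :=
      hcomp a ha
    rw [h2, tsum_mul_left, (hprod a 0).1.tsum_add (hprod a 1).1, (hprod a 0).2, (hprod a 1).2]
  have hdisj : ∀ x, x ∈ Set.range (P (n := n) 0) → x ∉ Set.range (P (n := n) 1) := by
    rintro x ⟨v, rfl⟩ ⟨w, hw⟩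
    have := congrFun hw ⟨0, hn0⟩
    unfold P at this
    have h2 : (2 * (w ⟨0, hn0⟩ : ℝ)) + 1 = 2 * (v ⟨0, hn0⟩ : ℝ) := by
      push_cast at this
      linarith
    have h3 : 2 * (w ⟨0, hn0⟩) + 1 = 2 * (v ⟨0, hn0⟩) := by exact_mod_cast h2
    omega
  have hsplit : ∀ x, tt M τ z x = f 0 x + f 1 x := by
    intro x
    simp only [f]
    by_cases hx : x ∈ M
    · rcases hx.1 with h | h
      · have h0 : x ∈ Set.range (P (n := n) 0) := by
          choose g hg using h
          exact ⟨g, by funext i; simp [P, hg i]⟩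
        rw [Set.indicator_of_mem h0, Set.indicator_of_notMem (hdisj x h0), add_zero]
      · have h1 : x ∈ Set.range (P (n := n) 1) := by
          choose g hg using h
          exact ⟨g, by funext i; simp [P, hg i]⟩
        rw [Set.indicator_of_mem h1, Set.indicator_of_notMem (fun h0 => hdisj x h0 h1), zero_add]
    · have h0 : tt M τ z x = 0 := by
        unfold tt
        exact Set.indicator_of_notMem hx _
      rw [h0]
      have h1 : ∀ s : Set (Fin n → ℝ), Set.indicator s (tt M τ z) x = 0 := by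
        intro s
        by_cases hs : x ∈ s
        · rw [Set.indicator_of_mem hs, h0]
        · exact Set.indicator_of_notMem hs _
      rw [h1, h1, add_zero]
  unfold th
  rw [show (fun v => tt M τ z v) = fun v => f 0 v + f 1 v from funext hsplit]
  rw [(hsum 0 (by norm_num)).tsum_add (hsum 1 le_rfl), htsum 0 (by norm_num), htsum 1 le_rfl]
  ring

end

end Pool.Agent.Run7.h267.JG
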